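import Mathlib
import Pool.Agent.J6H9.EU.Stm

set_option autoImplicit false

namespace Pool.Agent.J6H24.EU.Srt

open Filter Topology Pool.Agent.J6H9.EU

theorem exists_bound (δ : ℕ → ℕ) (h : Tendsto δ atTop atTop) :
    ∃ c : ℕ → ℕ, ∀ v x, δ x ≤ v → x ≤ c v := by
  have h1 : ∀ v : ℕ, ∃ N : ℕ, ∀ x, δ x ≤ v → x ≤ N := by
    intro v
    have h2 := h.eventually (eventually_gt_atTop v)
    obtain ⟨N, hN⟩ := eventually_atTop.1 h2
    refine ⟨N, fun x hx => ?_⟩
    by_contra hc
    have h3 := hN x (by omega)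
    omega
  choose c hc using h1
  exact ⟨c, hc⟩

/-- **EU-SRT** -/
theorem main : S_SRT := by
  intro δ h
  obtain ⟨c, hc⟩ := exists_bound δ h
  have key : ∀ x y, δ x < δ y →
      x + ∑ w ∈ Finset.range (δ x + 1), (c w + 1) < y + ∑ w ∈ Finset.range (δ y + 1), (c w + 1) := by
    intro x y hxy
    have h1 : ∑ w ∈ Finset.range (δ y), (c w + 1) + (c (δ y) + 1) =
        ∑ w ∈ Finset.range (δ y + 1), (c w + 1) := (Finset.sum_range_succ _ _).symm
    have h2 : ∑ w ∈ Finset.range (δ x + 1), (c w + 1) ≤ ∑ w ∈ Finset.range (δ y), (c w + 1) :=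
      Finset.sum_le_sum_of_subset (Finset.range_mono hxy)
    have h3 := hc (δ y) x hxy.le
    omega
  set ι : ℕ → ℕ := fun x => x + ∑ w ∈ Finset.range (δ x + 1), (c w + 1) with hι
  have inj : Function.Injective ι := by
    intro x y hxy
    rcases lt_trichotomy (δ x) (δ y) with h1 | h1 | h1
    · exact absurd hxy (key x y h1).ne
    · simp only [hι] at hxy
      rw [h1] at hxy
      omega
    · exact absurd hxy (key y x h1).ne'
  haveI : Infinite (Set.range ι) := (Set.infinite_range_of_injective inj).to_subtype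
  classical
  let e : ℕ ≃o Set.range ι := Nat.Subtype.orderIsoOfNat (Set.range ι)
  refine ⟨(Equiv.ofInjective ι inj).trans e.symm.toEquiv, fun x y hxy => ?_⟩
  have h1 : (Equiv.ofInjective ι inj x) < (Equiv.ofInjective ι inj y) := key x y hxy
  exact e.symm.lt_iff_lt.2 h1

end Pool.Agent.J6H24.EU.Srt
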